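import Pool.Agent.K6.H73.TP.Bounds

set_option autoImplicit false

namespace Pool.Agent.Results.MP_4e8562_co.AllSizes

open Pool.Agent.H948R3.TP

/-- Bounds for the tree partition number of `K_{n,m}` for all `r ≥ 2`, `n` and `m`, which give its
asymptotic value `((r - 1) / r) ^ n m` as soon as that number is large compared with
`n log r`. -/
theorem result (r n m : ℕ) (hr : 2 ≤ r) :
    (((r : ℝ) - 1) / r) ^ n * m - 2 * Real.sqrt ((((r : ℝ) - 1) / r) ^ n * m * (n * Real.log r)) ≤
      tp r n m ∧
    (tp r n m : ℝ) ≤ (((r : ℝ) - 1) / r) ^ n * m + n :=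
  Pool.Agent.K6.H73.TP.bounds hr

end Pool.Agent.Results.MP_4e8562_co.AllSizes
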