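import Pool.Agent.K6.H73.TB.All5

set_option autoImplicit false

namespace Pool.Agent.Results.MP_4e8562_co.BoundedRange

open Pool.Agent.H948R3.TP

/-- For `r ≥ 2` colours the tree partition number of `K_{n,m}` is bounded by a constant `C` that
depends on `r` only for all `n` and `m` with `C ≤ n ≤ m` and `m n ^ C ≤ (r / (r - 1)) ^ n`. -/
theorem result (r : ℕ) (hr : 2 ≤ r) : ∃ C : ℕ, ∀ n m : ℕ, C ≤ n → n ≤ m →
    (m : ℝ) * (n : ℝ) ^ C ≤ ((r : ℝ) / ((r : ℝ) - 1)) ^ n →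
    r ≤ tp r n m ∧ tp r n m ≤ C :=
  Pool.Agent.K6.H73.TB.bounded_poly r hr

end Pool.Agent.Results.MP_4e8562_co.BoundedRange
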