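import Pool.Agent.K6.H73.TP.Red

set_option autoImplicit false

namespace Pool.Agent.Results.MP_4e8562_co.ExtremalReduction

open Pool.Agent.H948R3.TP

/-- For `m ≥ 16 r ^ 7 n (r / (r - 1)) ^ n` the tree partition number of `K_{n,m}` is the value of
an extremal problem on words of length `n` over `r` letters, with two bounds for it which agree
when `r ^ n` divides `m - r`. -/
theorem result (r n m : ℕ) (hr : 2 ≤ r) (hn : 1 ≤ n)
    (hm : 16 * r ^ 7 * n * r ^ n ≤ (r - 1) ^ n * m) :
    (∀ k : ℕ, k ≤ tp r n m ↔ ∃ A : Fin n → Fin m → Fin r, ∀ c : Fin n → Fin r,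
      k ≤ (Finset.univ.filter (fun y => ∀ x, A x y ≠ c x)).card + (Finset.univ.image c).card) ∧
    r + (r - 1) ^ n * ((m - r) / r ^ n) ≤ tp r n m ∧
    tp r n m ≤ (fun M : ℕ => 1 + (r - 1) * M / r)^[n] m ∧
    (r ^ n ∣ m - r → tp r n m = r + (r - 1) ^ n * ((m - r) / r ^ n)) := by
  have hpos : 0 < r ^ n := Nat.pow_pos (by omega)
  have hrm : r ≤ m := by
    have h1 : (r - 1) ^ n * m ≤ r ^ n * m :=
      Nat.mul_le_mul_right _ (Nat.pow_le_pow_left (by omega) n)
    have h2 : r ^ n * (16 * r ^ 7 * n) ≤ r ^ n * m := by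
      refine le_trans (le_of_eq ?_) (hm.trans h1)
      ring
    have h3 := Nat.le_of_mul_le_mul_left h2 hpos
    refine le_trans ?_ h3
    calc r = 1 * r * 1 := by ring
      _ ≤ 16 * r ^ 7 * n := by
        apply Nat.mul_le_mul _ hn
        apply Nat.mul_le_mul (by norm_num)
        exact Nat.le_self_pow (by norm_num) r
  have hred := Pool.Agent.K6.H73.TP.reduction (n := n) (m := m) hr hm
  have hlow := lower_simple (n := n) (m := m) (r := r) (by omega) hrm
  have hup : tp r n m ≤ (fun M : ℕ => 1 + (r - 1) * M / r)^[n] m := by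
    obtain ⟨A, hA⟩ := (hred (tp r n m)).1 le_rfl
    obtain ⟨c, hc⟩ := greedy (by omega : 0 < r) n A
    rw [Fintype.card_fin] at hc
    exact (hA c).trans hc
  refine ⟨hred, hlow, hup, ?_⟩
  rintro ⟨q, hq⟩
  refine le_antisymm ?_ hlow
  have h2 := iter_le (r := r) (by omega) n (m - r)
  have h3 : r + (m - r) = m := by omega
  rw [h3, hq] at h2
  rw [hq, Nat.mul_div_cancel_left _ hpos]
  have h4 : r ^ n * (hstep r)^[n] m ≤ r ^ n * (r + (r - 1) ^ n * q) := by
    refine h2.trans (le_of_eq ?_)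
    ring
  exact hup.trans (Nat.le_of_mul_le_mul_left h4 hpos)

end Pool.Agent.Results.MP_4e8562_co.ExtremalReduction
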