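import Pool.Agent.K6.H73.TB.All1
import Pool.Agent.H948R3.TPSimple

set_option autoImplicit false

namespace Pool.Agent.Results.MP_4e8562_co.LinearBound

open Pool.Agent.H948R3.TP

/-- For every number `r` of colours there is `C` such that the tree partition number of `K_{n,m}`
lies between `r` and `6 r` whenever `C ≤ n ≤ m` and `(log₂ m) ^ C ≤ n`. -/
theorem result (r : ℕ) (hr : 1 ≤ r) : ∃ C : ℕ, ∀ n m : ℕ, C ≤ n → n ≤ m →
    Nat.log 2 m ^ C ≤ n → r ≤ tp r n m ∧ tp r n m ≤ 6 * r := by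
  obtain ⟨C, hC⟩ := Pool.Agent.K6.H73.TB.p_FIN r hr
  refine ⟨max C r, ?_⟩
  intro n m hn hnm hlog
  have h1 : C ≤ n := (le_max_left _ _).trans hn
  have h2 : r ≤ n := (le_max_right _ _).trans hn
  have h3 : Nat.log 2 m ^ C ≤ n := by
    rcases Nat.eq_zero_or_pos (Nat.log 2 m) with h | h
    · rw [h]
      rcases Nat.eq_zero_or_pos C with h0 | h0
      · rw [h0, pow_zero]; omega
      · rw [Nat.zero_pow h0]; omega
    · exact (Nat.pow_le_pow_right h (le_max_left _ _)).trans hlog
  refine ⟨?_, hC n m h1 hnm h3⟩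
  have h4 := lower_simple (n := n) (m := m) (r := r) hr (h2.trans hnm)
  exact (Nat.le_add_right _ _).trans h4

end Pool.Agent.Results.MP_4e8562_co.LinearBound
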